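import Pool.Agent.W187.UR.Stm2

/-! The growth function `HH` is large infinitely often. -/

set_option autoImplicit false

namespace Pool.Agent.W376.UR

open Complex MeasureTheory Filter Topology Set
open Pool.Agent.W189.ML Pool.Agent.W189.LC Pool.Agent.W187.UR

theorem om_meas : AEStronglyMeasurable (fun u : ℝ => (om u : ℂ)) (volume.restrict (Ioi 0)) := by
  refine ContinuousOn.aestronglyMeasurable ?_ measurableSet_Ioi
  intro u hu
  have hu' : (0 : ℝ) < u := hu
  have h1 := Real.Gamma_pos_of_pos (by linarith : 0 < 1 + u)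
  have h2 : ContinuousAt Real.Gamma (1 + u) := by
    refine (Real.differentiableAt_Gamma fun m => ?_).continuousAt
    have : (0 : ℝ) ≤ m := m.cast_nonneg
    linarith
  have h3 : ContinuousAt (fun u : ℝ => Real.Gamma (1 + u)) u :=
    ContinuousAt.comp (f := fun u : ℝ => 1 + u) (g := Real.Gamma) h2 (by fun_prop)
  have h4 : ContinuousAt om u := h3.inv₀ h1.ne'
  exact (Complex.continuous_ofReal.continuousAt.comp h4).continuousWithinAt

theorem exp_om_le {y b u : ℝ} (hb : 0 ≤ b) (hy : y ≤ b) (hu : 0 < u) :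
    Real.exp (y * u) * om u ≤ (Real.exp (Real.exp (b + 1)) + 1) * Real.exp (-u) := by
  have h2 := om_le (a := b + 1) (by linarith) hu.le
  calc Real.exp (y * u) * om u
      ≤ Real.exp (b * u) * ((Real.exp (Real.exp (b + 1)) + 1) * Real.exp (-((b + 1) * u))) := by
        refine mul_le_mul ?_ h2 (om_nonneg hu.le) (Real.exp_pos _).le
        apply Real.exp_le_exp.2
        exact mul_le_mul_of_nonneg_right hy hu.le
    _ = (Real.exp (Real.exp (b + 1)) + 1) * (Real.exp (b * u) * Real.exp (-((b + 1) * u))) := by ring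
    _ = _ := by
      rw [← Real.exp_add]
      congr 2
      ring

theorem F_int (z : ℂ) : Integrable
    (fun u : ℝ => (exp (z * u) * (om u : ℂ) - (Real.exp (-u) : ℂ)) / u)
    (volume.restrict (Ioi 0)) := by
  have h1 : Integrable (fun u : ℝ => (exp (z * u) - 1) / u * (om u : ℂ))
      (volume.restrict (Ioi 0)) := by
    refine Integrable.mono' ((integrableOn_exp_neg_Ioi 0).const_mul
      (‖z‖ * (Real.exp (Real.exp (‖z‖ + 1)) + 1))) ?_ ?_
    · refine AEStronglyMeasurable.mul ?_ om_meas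
      exact (by fun_prop : Measurable (fun u : ℝ => (exp (z * u) - 1) / (u : ℂ))).aestronglyMeasurable
    · filter_upwards [ae_restrict_mem measurableSet_Ioi] with u hu
      have hu' : (0 : ℝ) < u := hu
      have h2 : ‖exp (z * u) - 1‖ ≤ ‖z * u‖ * Real.exp ‖z * u‖ := by
        have := Complex.norm_exp_sub_sum_le_norm_mul_exp (z * u) 1
        simpa using this
      have h3 : ‖z * (u : ℂ)‖ = ‖z‖ * u := by
        rw [norm_mul, Complex.norm_real, Real.norm_eq_abs, abs_of_pos hu']
      rw [h3] at h2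
      have h4 : ‖(om u : ℂ)‖ = om u := by
        rw [Complex.norm_real, Real.norm_eq_abs, abs_of_nonneg (om_nonneg hu'.le)]
      have h5 : ‖(u : ℂ)‖ = u := by
        rw [Complex.norm_real, Real.norm_eq_abs, abs_of_pos hu']
      rw [norm_mul, norm_div, h4, h5]
      have h6 := exp_om_le (y := ‖z‖) (norm_nonneg z) le_rfl hu'
      calc ‖exp (z * u) - 1‖ / u * om u ≤ (‖z‖ * u * Real.exp (‖z‖ * u)) / u * om u := by
            refine mul_le_mul_of_nonneg_right ?_ (om_nonneg hu'.le)
            exact div_le_div_of_nonneg_right h2 hu'.le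
        _ = ‖z‖ * (Real.exp (‖z‖ * u) * om u) := by field_simp
        _ ≤ ‖z‖ * ((Real.exp (Real.exp (‖z‖ + 1)) + 1) * Real.exp (-u)) :=
            mul_le_mul_of_nonneg_left h6 (norm_nonneg z)
        _ = _ := by ring
  have h2 : Integrable (fun u : ℝ => (((Real.exp (-u) - (Real.Gamma (1 + u))⁻¹) / u : ℝ) : ℂ))
      (volume.restrict (Ioi 0)) := Integrable.ofReal quot_int
  refine (h1.sub h2).congr ?_
  filter_upwards with u
  simp only [Pi.sub_apply]
  push_cast [om]
  ring

theorem hasDerivAt_HH (γ x : ℝ) :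
    HasDerivAt (fun x : ℝ => HH (x + γ * I)) (NU (x + γ * I)) x := by
  have key := hasDerivAt_integral_of_dominated_loc_of_deriv_le (μ := volume.restrict (Ioi (0 : ℝ)))
    (𝕜 := ℝ)
    (F := fun (x : ℝ) (u : ℝ) => (exp ((x + γ * I) * u) * (om u : ℂ) - (Real.exp (-u) : ℂ)) / u)
    (F' := fun (x u : ℝ) => exp ((x + γ * I) * u) * (om u : ℂ)) (x₀ := x) (s := Metric.ball x 1)
    (bound := fun u => (Real.exp (Real.exp ((|x| + 1) + 1)) + 1) * Real.exp (-u))
    (Metric.ball_mem_nhds x one_pos) ?_ (F_int _) ?_ ?_ ?_ ?_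
  · exact key.2
  · exact Eventually.of_forall fun y => (F_int _).aestronglyMeasurable
  · refine AEStronglyMeasurable.mul ?_ om_meas
    exact (by fun_prop : Measurable (fun u : ℝ => exp ((x + γ * I) * u))).aestronglyMeasurable
  · filter_upwards [ae_restrict_mem measurableSet_Ioi] with u hu y hy
    have hu' : (0 : ℝ) < u := hu
    have h4 : ‖(om u : ℂ)‖ = om u := by
      rw [Complex.norm_real, Real.norm_eq_abs, abs_of_nonneg (om_nonneg hu'.le)]
    rw [norm_mul, Complex.norm_exp, h4]
    have h5 : (((y : ℂ) + γ * I) * u).re = y * u := by simp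
    rw [h5]
    refine exp_om_le (by positivity) ?_ hu'
    rw [Metric.mem_ball, Real.dist_eq] at hy
    have h6 := abs_lt.1 hy
    have h7 := le_abs_self x
    linarith
  · exact (integrableOn_exp_neg_Ioi 0).const_mul _
  · filter_upwards [ae_restrict_mem measurableSet_Ioi] with u hu y hy
    have hu' : (0 : ℝ) < u := hu
    have huc : (u : ℂ) ≠ 0 := by exact_mod_cast hu'.ne'
    have h1 : HasDerivAt (fun y : ℝ => ((y : ℂ) + γ * I) * u) u y := by
      have := (((hasDerivAt_id y).ofReal_comp).add_const (γ * I)).mul_const (u : ℂ)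
      simpa using this
    have h2 := ((h1.cexp.mul_const (om u : ℂ)).sub_const (Real.exp (-u) : ℂ)).div_const (u : ℂ)
    refine h2.congr_deriv ?_
    field_simp

theorem hasDerivAt_e (γ x : ℝ) :
    HasDerivAt (fun x : ℝ => exp (exp (x + γ * I) - (x + γ * I)))
      (exp (exp (x + γ * I)) - exp (exp (x + γ * I) - (x + γ * I))) x := by
  have h1 : HasDerivAt (fun y : ℝ => (y : ℂ) + γ * I) 1 x := by
    have := ((hasDerivAt_id x).ofReal_comp).add_const (γ * I)
    simpa using this
  have h2 := (h1.cexp.sub h1).cexp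
  refine h2.congr_deriv ?_
  have h3 : exp (exp (x + γ * I)) = exp (exp (x + γ * I) - (x + γ * I)) * exp (x + γ * I) := by
    rw [← Complex.exp_add]; congr 1; ring
  simp only [Pi.sub_apply]
  rw [h3]; ring

theorem exp_re (γ x : ℝ) : (exp (x + γ * I)).re = Real.exp x * Real.cos γ := by
  rw [Complex.exp_re]; simp

theorem exp_im (γ x : ℝ) : (exp (x + γ * I)).im = Real.exp x * Real.sin γ := by
  rw [Complex.exp_im]; simp

theorem norm_e (γ x : ℝ) : ‖exp (exp (x + γ * I) - (x + γ * I))‖ =
    Real.exp (Real.exp x * Real.cos γ - x) := by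
  rw [Complex.norm_exp]
  congr 1
  rw [Complex.sub_re, exp_re]
  simp

theorem re_e (γ x : ℝ) : (exp (exp (x + γ * I) - (x + γ * I))).re =
    Real.exp (Real.exp x * Real.cos γ - x) * Real.cos (Real.exp x * Real.sin γ - γ) := by
  rw [Complex.exp_re]
  rw [Complex.sub_re, Complex.sub_im, exp_re, exp_im]
  simp

/-- the cosine is one infinitely often -/
theorem freq (γ : ℝ) (h0 : 0 ≤ γ) (h1 : γ < Real.pi / 2) :
    ∃ᶠ x : ℝ in atTop, Real.cos (Real.exp x * Real.sin γ - γ) = 1 := by
  rw [frequently_atTop]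
  intro a
  rcases h0.lt_or_eq with h | h
  · have hs : 0 < Real.sin γ := Real.sin_pos_of_pos_of_lt_pi h (by linarith [Real.pi_pos])
    obtain ⟨k, hk⟩ := exists_nat_ge (Real.exp a * Real.sin γ)
    have hpos : 0 < (k * (2 * Real.pi) + γ) / Real.sin γ := by positivity
    refine ⟨Real.log ((k * (2 * Real.pi) + γ) / Real.sin γ), ?_, ?_⟩
    · rw [Real.le_log_iff_exp_le hpos, le_div_iff₀ hs]
      have : (k : ℝ) ≤ k * (2 * Real.pi) := by
        have h3 := Real.pi_gt_three
        have h4 : (0 : ℝ) ≤ k := k.cast_nonneg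
        nlinarith
      linarith
    · rw [Real.exp_log hpos, div_mul_cancel₀ _ hs.ne', add_sub_cancel_right]
      exact Real.cos_nat_mul_two_pi k
  · refine ⟨a, le_rfl, ?_⟩
    rw [← h]; simp

theorem hh : S_NU → S_HH := by
  rintro ⟨A, hA, hNU⟩ γ h0 h1
  obtain ⟨C, hC⟩ := hNU γ h0 h1
  set c : ℝ := Real.cos γ with hc
  have hcpos : 0 < c := Real.cos_pos_of_mem_Ioo ⟨by linarith, h1⟩
  have hC0 : 0 ≤ C := (norm_nonneg _).trans (hC 1 le_rfl)
  set K : ℝ := 2 * (C + A) / c with hK
  have hK0 : 0 ≤ K := by positivity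
  -- a threshold
  have hlim : Tendsto (fun x : ℝ => Real.exp x / x ^ 1) atTop atTop :=
    Real.tendsto_exp_div_pow_atTop 1
  have hev1 : ∀ᶠ x : ℝ in atTop, 2 / c ≤ Real.exp x / x ^ 1 := hlim.eventually_ge_atTop _
  have hev2 : ∀ᶠ x : ℝ in atTop, 4 / c ≤ Real.exp x := Real.tendsto_exp_atTop.eventually_ge_atTop _
  obtain ⟨x1, hx1⟩ := ((hev1.and hev2).and (eventually_ge_atTop (1 : ℝ))).exists_forall_of_atTop
  have hx1' : ∀ x, x1 ≤ x → 2 * x ≤ Real.exp x * c ∧ 4 ≤ Real.exp x * c ∧ 1 ≤ x := by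
    intro x hx
    obtain ⟨⟨ha, hb⟩, hd⟩ := hx1 x hx
    rw [pow_one, div_le_div_iff₀ hcpos (by linarith)] at ha
    rw [div_le_iff₀ hcpos] at hb
    exact ⟨by linarith, hb, hd⟩
  set k : ℝ → ℂ := fun x => HH (x + γ * I) - A * exp (exp (x + γ * I) - (x + γ * I)) with hk
  have hkd : ∀ x : ℝ, HasDerivAt k (NU (x + γ * I) - A * (exp (exp (x + γ * I)) -
      exp (exp (x + γ * I) - (x + γ * I)))) x := fun x =>
    (hasDerivAt_HH γ x).sub ((hasDerivAt_e γ x).const_mul (A : ℂ))
  have hkc : Continuous k := continuous_iff_continuousAt.2 fun x => (hkd x).continuousAt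
  -- bound of the derivative
  have hkb : ∀ x, x1 ≤ x → ‖NU (x + γ * I) - A * (exp (exp (x + γ * I)) -
      exp (exp (x + γ * I) - (x + γ * I)))‖ ≤ (C + A) * Real.exp (Real.exp x * c - x) := by
    intro x hx
    obtain ⟨ha, hb, hd⟩ := hx1' x hx
    have e1 : NU (x + γ * I) - A * (exp (exp (x + γ * I)) - exp (exp (x + γ * I) - (x + γ * I))) =
        (NU (x + γ * I) - A * exp (exp (x + γ * I))) + A * exp (exp (x + γ * I) - (x + γ * I)) := by
      ring
    rw [e1]
    refine (norm_add_le _ _).trans ?_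
    rw [norm_mul, norm_e, Complex.norm_real, Real.norm_eq_abs, abs_of_pos hA]
    have e2 : 1 ≤ Real.exp (Real.exp x * c - x) := Real.one_le_exp (by linarith)
    have e3 := hC x hd
    have e4 : C ≤ C * Real.exp (Real.exp x * c - x) := le_mul_of_one_le_right hC0 e2
    calc _ ≤ C * Real.exp (Real.exp x * c - x) + A * Real.exp (Real.exp x * c - x) := by
          linarith
      _ = _ := by ring
  -- comparison
  have hcmp : ∀ x, x1 ≤ x → ‖k x‖ ≤ ‖k x1‖ + K * Real.exp (Real.exp x * c - 2 * x) := by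
    intro x hx
    have hB : ∀ y : ℝ, HasDerivAt (fun y => ‖k x1‖ + K * Real.exp (Real.exp y * c - 2 * y))
        (K * (Real.exp (Real.exp y * c - 2 * y) * (Real.exp y * c - 2))) y := by
      intro y
      have h2 : HasDerivAt (fun y : ℝ => Real.exp y * c - 2 * y) (Real.exp y * c - 2) y := by
        have := ((Real.hasDerivAt_exp y).mul_const c).sub ((hasDerivAt_id y).const_mul 2)
        rw [mul_one] at this
        exact this
      exact (h2.exp.const_mul K).const_add _
    refine image_norm_le_of_norm_deriv_right_le_deriv_boundary (f := k) (a := x1) (b := x)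
      hkc.continuousOn (fun y _ => (hkd y).hasDerivWithinAt) ?_ hB ?_ ⟨hx, le_rfl⟩
    · have : 0 ≤ K * Real.exp (Real.exp x1 * c - 2 * x1) := by positivity
      linarith
    · intro y hy
      refine (hkb y hy.1).trans ?_
      obtain ⟨ha, hb, hd⟩ := hx1' y hy.1
      have e1 : Real.exp (Real.exp y * c - y) =
          Real.exp (Real.exp y * c - 2 * y) * Real.exp y := by
        rw [← Real.exp_add]; congr 1; ring
      rw [e1]
      have e2 : c / 2 * Real.exp y ≤ Real.exp y * c - 2 := by linarith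
      calc (C + A) * (Real.exp (Real.exp y * c - 2 * y) * Real.exp y)
          = K * (Real.exp (Real.exp y * c - 2 * y) * (c / 2 * Real.exp y)) := by
            rw [hK]; field_simp
        _ ≤ _ := by gcongr
  have hev3 : ∀ᶠ x : ℝ in atTop, (‖k x1‖ + K + 1) / A ≤ Real.exp x :=
    Real.tendsto_exp_atTop.eventually_ge_atTop _
  refine ((freq γ h0 h1).and_eventually (hev3.and (eventually_ge_atTop x1))).mono ?_
  rintro x ⟨hcos, hx3, hx⟩
  obtain ⟨ha, hb, hd⟩ := hx1' x hx
  rw [div_le_iff₀ hA] at hx3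
  have e1 : HH (x + γ * I) = k x + A * exp (exp (x + γ * I) - (x + γ * I)) := by
    rw [hk]; ring
  rw [e1, Complex.add_re, Complex.re_ofReal_mul, re_e, hcos, mul_one]
  have e2 : -‖k x‖ ≤ (k x).re := by
    have := Complex.abs_re_le_norm (k x)
    linarith [neg_abs_le (k x).re]
  have e3 := hcmp x hx
  have e4 : Real.exp (Real.exp x * c - x) =
      Real.exp (Real.exp x * c - 2 * x) * Real.exp x := by
    rw [← Real.exp_add]; congr 1; ring
  rw [← hc, e4]
  set P := Real.exp (Real.exp x * c - 2 * x) with hP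
  have e5 : 1 ≤ P := Real.one_le_exp (by linarith)
  have e6 : (‖k x1‖ + K + 1) * P ≤ (Real.exp x * A) * P :=
    mul_le_mul_of_nonneg_right hx3 (by linarith)
  have e7 : ‖k x1‖ ≤ ‖k x1‖ * P := le_mul_of_one_le_right (norm_nonneg _) e5
  nlinarith

end Pool.Agent.W376.UR
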